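import Pool.Agent.W2helper81.IW.Defs
import Pool.Agent.Q60.MU.Coind
import Pool.Agent.Q60.MU.Fields

/-!
Project IW (helper81), piece FORM: a nonzero linear form fixed by a subgroup of small index prime
to `p`.
-/

set_option autoImplicit false

namespace Pool.Agent.W2helper24.IW

open IntermediateField Module Pool.Agent.Q60.MU Pool.Agent.W5h77.MB Pool.Agent.W2helper81.IW
open scoped Pointwise

section alg

variable {p : ℕ} [Fact p.Prime] {G : Type} [Group G]

/-- the orbit of a nonzero vector has fewer elements than the space -/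
theorem index_stab_lt {V : Type} [AddCommGroup V] [Module (ZMod p) V] [Finite V]
    (τ : Representation (ZMod p) G V) {v : V} (hv : v ≠ 0) :
    (stab τ v).index < Nat.card V := by
  classical
  let act : MulAction G V :=
    { smul := fun g v => τ g v
      one_smul := fun v => by
        show τ 1 v = v
        rw [map_one]
        rfl
      mul_smul := fun g h v => by
        show τ (g * h) v = τ g (τ h v)
        rw [map_mul]
        rfl }
  have h1 : MulAction.stabilizer G v = stab τ v := by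
    ext g
    exact Iff.rfl
  rw [← h1, MulAction.index_stabilizer]
  have h2 : MulAction.orbit G v ⊂ Set.univ := by
    rw [Set.ssubset_univ_iff]
    intro h3
    have h4 : (0 : V) ∈ MulAction.orbit G v := h3 ▸ Set.mem_univ _
    obtain ⟨g, hg⟩ := h4
    have hg' : τ g v = 0 := hg
    apply hv
    calc v = τ g⁻¹ (τ g v) := by
          rw [← Module.End.mul_apply, ← map_mul, inv_mul_cancel, map_one]; rfl
      _ = 0 := by rw [hg', map_zero]
  have h5 := Set.ncard_lt_ncard h2
  rwa [Set.ncard_univ] at h5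

variable {W : Type} [AddCommGroup W] [Module (ZMod p) W]

/-- the linear forms on `U'` which vanish on `U` -/
def An (U U' : Submodule (ZMod p) W) : Submodule (ZMod p) (Module.Dual (ZMod p) U') where
  carrier := {φ | ∀ x : U', (x : W) ∈ U → φ x = 0}
  add_mem' := fun {a b} ha hb x hx => by rw [LinearMap.add_apply, ha x hx, hb x hx, add_zero]
  zero_mem' := fun x _ => rfl
  smul_mem' := fun c a ha x hx => by rw [LinearMap.smul_apply, ha x hx, smul_zero]

theorem mem_An {U U' : Submodule (ZMod p) W} {φ : Module.Dual (ZMod p) U'} :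
    φ ∈ An U U' ↔ ∀ x : U', (x : W) ∈ U → φ x = 0 := Iff.rfl

variable (ρ : Representation (ZMod p) G W) {U U' : Submodule (ZMod p) W}
  (hU : Stable ρ U) (hU' : Stable ρ U')

/-- the action on the forms -/
def actAn : Representation (ZMod p) G (An U U') where
  toFun g :=
    { toFun := fun φ => ⟨φ.1.comp (sub ρ hU' g⁻¹), fun x hx => φ.2 _ (hU g⁻¹ _ hx)⟩
      map_add' := fun a b => by
        apply Subtype.ext
        apply LinearMap.ext
        intro x
        rfl
      map_smul' := fun c a => by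
        apply Subtype.ext
        apply LinearMap.ext
        intro x
        rfl }
  map_one' := by
    apply LinearMap.ext
    intro φ
    apply Subtype.ext
    apply LinearMap.ext
    intro x
    show φ.1 (sub ρ hU' 1⁻¹ x) = φ.1 x
    rw [inv_one, map_one]
    rfl
  map_mul' g h := by
    apply LinearMap.ext
    intro φ
    apply Subtype.ext
    apply LinearMap.ext
    intro x
    show φ.1 (sub ρ hU' (g * h)⁻¹ x) = φ.1 (sub ρ hU' h⁻¹ (sub ρ hU' g⁻¹ x))
    rw [mul_inv_rev, map_mul]
    rfl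

theorem actAn_apply (g : G) (φ : An U U') (x : U') :
    (actAn ρ hU hU' g φ).1 x = φ.1 ⟨ρ g⁻¹ x, hU' g⁻¹ x x.2⟩ := rfl

theorem card_An [Finite W] (U U' : Submodule (ZMod p) W) :
    Finite (An U U') ∧ Nat.card (An U U') ≤ Nat.card W := by
  have hmfU : Module.Finite (ZMod p) U' := Module.Finite.of_finite
  have hcardD : Nat.card (Module.Dual (ZMod p) U') = Nat.card U' := by
    rw [Module.natCard_eq_pow_finrank (K := ZMod p) (V := Module.Dual (ZMod p) U'),
      Module.natCard_eq_pow_finrank (K := ZMod p) (V := U'), Subspace.dual_finrank_eq]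
  have hfinD : Finite (Module.Dual (ZMod p) U') := Module.finite_of_finite (ZMod p)
  refine ⟨inferInstance, ?_⟩
  calc Nat.card (An U U') ≤ Nat.card (Module.Dual (ZMod p) U') :=
        Nat.card_le_card_of_injective _ Subtype.val_injective
    _ = Nat.card U' := hcardD
    _ ≤ Nat.card W := Nat.card_le_card_of_injective _ Subtype.val_injective

theorem nontrivial_An {U U' : Submodule (ZMod p) W} (hlt : U < U') : Nontrivial (An U U') := by
  have hlt' : U.comap U'.subtype < ⊤ := by
    rw [lt_top_iff_ne_top]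
    intro h
    apply hlt.not_ge
    intro x hx
    have : (⟨x, hx⟩ : U') ∈ U.comap U'.subtype := h ▸ Submodule.mem_top
    exact this
  obtain ⟨f, hf0, hf⟩ := Submodule.exists_le_ker_of_lt_top _ hlt'
  refine ⟨⟨f, fun x hx => ?_⟩, 0, fun h => hf0 ?_⟩
  · exact LinearMap.mem_ker.1 (hf hx)
  · exact congrArg Subtype.val h

theorem form_alg [Finite W] (ρ : Representation (ZMod p) G W) {U U' : Submodule (ZMod p) W}
    (hU : Stable ρ U) (hU' : Stable ρ U') (hlt : U < U') (N₀ : Subgroup G) (hN : N₀.Normal)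
    (hN0 : N₀.index ≠ 0) (hNρ : ∀ g ∈ N₀, ∀ x, ρ g x = x) :
    ∃ f : W →ₗ[ZMod p] ZMod p, (∀ x ∈ U, f x = 0) ∧ (∃ x ∈ U', f x ≠ 0) ∧
      ∃ S : Subgroup G, (∀ g, (∀ x ∈ U', f (ρ g x) = f x) ↔ g ∈ S) ∧ ¬ p ∣ S.index ∧
        S.index < Nat.card W ∧ N₀ ≤ S := by
  obtain ⟨hfinA, hcardA⟩ := card_An U U'
  have hmfA : Module.Finite (ZMod p) (An U U') := Module.Finite.of_finite
  have hnt := nontrivial_An hlt
  have hτN : ∀ g ∈ N₀, ∀ φ, actAn ρ hU hU' g φ = φ := by
    intro g hg φ
    apply Subtype.ext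
    apply LinearMap.ext
    intro x
    rw [actAn_apply]
    congr 1
    apply Subtype.ext
    exact hNρ _ (inv_mem hg) x
  obtain ⟨v, hv0, P, hP, hPp⟩ := exists_vec_P hN hN0 (actAn ρ hU hU') hτN
  obtain ⟨f, hf⟩ := LinearMap.exists_extend v.1
  have hfx : ∀ x (hx : x ∈ U'), f x = v.1 ⟨x, hx⟩ := fun x hx => by
    rw [← hf]
    rfl
  refine ⟨f, fun x hx => ?_, ?_, stab (actAn ρ hU hU') v, fun g => ?_, ?_, ?_, ?_⟩
  · rw [hfx x (hlt.le hx)]
    exact v.2 ⟨x, hlt.le hx⟩ hx
  · by_contra hcon
    push Not at hcon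
    apply hv0
    apply Subtype.ext
    apply LinearMap.ext
    intro x
    have := hcon x.1 x.2
    rw [hfx _ x.2] at this
    exact this
  · rw [← inv_mem_iff, mem_stab]
    constructor
    · intro h
      apply Subtype.ext
      apply LinearMap.ext
      intro x
      have h1 := h x.1 x.2
      rw [hfx _ x.2, hfx _ (hU' g _ x.2)] at h1
      rw [actAn_apply]
      simp only [inv_inv]
      exact h1
    · intro h x hx
      have h1 := actAn_apply ρ hU hU' g⁻¹ v ⟨x, hx⟩
      rw [h] at h1
      simp only [inv_inv] at h1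
      rw [hfx _ hx, hfx _ (hU' g _ hx)]
      exact h1.symm
  · exact fun h => hPp (h.trans (Subgroup.index_dvd_of_le hP))
  · exact (index_stab_lt _ hv0).trans_le hcardA
  · exact fun g hg => hτN g hg v

end alg

theorem field_part {p : ℕ} {K N : IntermediateField ℚ Qb} (hK : FiniteDimensional ℚ K)
    (hN : FiniteDimensional ℚ N) {W : Type} [AddCommGroup W] [Module (ZMod p) W]
    (ρ : Representation (ZMod p) K.fixingSubgroup W) (U' : Submodule (ZMod p) W)
    (f : W →ₗ[ZMod p] ZMod p) (S : Subgroup K.fixingSubgroup)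
    (hS : ∀ g, (∀ x ∈ U', f (ρ g x) = f x) ↔ g ∈ S)
    (hNS : N.fixingSubgroup.subgroupOf K.fixingSubgroup ≤ S) :
    FiniteDimensional ℚ (formField ρ U' f) ∧ K ≤ formField ρ U' f ∧
      finrank ℚ (formField ρ U' f) = S.index * finrank ℚ K := by
  have hset : {g : Gal(Qb/ℚ) | ∃ h : g ∈ K.fixingSubgroup, ∀ x ∈ U', f (ρ ⟨g, h⟩ x) = f x} =
      (S.map K.fixingSubgroup.subtype : Set Gal(Qb/ℚ)) := by
    ext g
    constructor
    · rintro ⟨h, hg⟩
      exact ⟨⟨g, h⟩, (hS ⟨g, h⟩).1 hg, rfl⟩
    · rintro ⟨g', hg', rfl⟩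
      exact ⟨g'.2, (hS g').2 hg'⟩
  have hform : formField ρ U' f = fixedField (S.map K.fixingSubgroup.subtype) := by
    unfold formField
    rw [hset, Subgroup.closure_eq]
  have hTopen : IsOpen ((S.map K.fixingSubgroup.subtype : Subgroup Gal(Qb/ℚ)) :
      Set Gal(Qb/ℚ)) := by
    have h1 : IsOpen ((N.fixingSubgroup ⊓ K.fixingSubgroup : Subgroup Gal(Qb/ℚ)) :
        Set Gal(Qb/ℚ)) := N.fixingSubgroup_isOpen.inter K.fixingSubgroup_isOpen
    refine Subgroup.isOpen_mono (H₁ := N.fixingSubgroup ⊓ K.fixingSubgroup) ?_ h1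
    rintro g ⟨hgN, hgK⟩
    exact ⟨⟨g, hgK⟩, hNS hgN, rfl⟩
  have hKidx := index_ne_zero' K
  have hNidx : (N.fixingSubgroup.subgroupOf K.fixingSubgroup).index ≠ 0 := by
    have h1 : N.fixingSubgroup.FiniteIndex := ⟨index_ne_zero' N⟩
    exact (inferInstance : (N.fixingSubgroup.subgroupOf K.fixingSubgroup).FiniteIndex).index_ne_zero
  have hS0 : S.index ≠ 0 := fun h => hNidx (by
    have := Subgroup.index_dvd_of_le hNS
    rw [h] at this
    exact zero_dvd_iff.1 this)
  have hTidx : (S.map K.fixingSubgroup.subtype).index = S.index * K.fixingSubgroup.index :=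
    Subgroup.index_map_subtype S
  rw [hform]
  refine ⟨finite_fixed hTopen (by rw [hTidx]; exact mul_ne_zero hS0 hKidx), ?_, ?_⟩
  · rw [IntermediateField.le_iff_le]
    rintro g ⟨g', -, rfl⟩
    exact g'.2
  · rw [finrank_eq_fixingSubgroup_index, fix_fixed hTopen, hTidx, finrank_eq_fixingSubgroup_index]

theorem FORM_ok : P_FORM := by
  intro p hp K hK W _ _ _ ρ hρ U U' hstep
  have : Fact p.Prime := ⟨hp⟩
  obtain ⟨hU, hU', hlt, -⟩ := hstep
  obtain ⟨N, hN, hNρ⟩ := hρ
  have hNle : N.fixingSubgroup.subgroupOf K.fixingSubgroup ≤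
      MonoidHom.ker (ρ : K.fixingSubgroup →* Module.End (ZMod p) W) := by
    intro g hg
    rw [MonoidHom.mem_ker]
    apply LinearMap.ext
    intro x
    exact hNρ g hg x
  have hN0 : (MonoidHom.ker (ρ : K.fixingSubgroup →* Module.End (ZMod p) W)).index ≠ 0 := by
    have h1 : N.fixingSubgroup.FiniteIndex := ⟨index_ne_zero' N⟩
    have h2 : (N.fixingSubgroup.subgroupOf K.fixingSubgroup).index ≠ 0 :=
      (inferInstance : (N.fixingSubgroup.subgroupOf K.fixingSubgroup).FiniteIndex).index_ne_zero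
    intro h
    apply h2
    have := Subgroup.index_dvd_of_le hNle
    rw [h] at this
    exact zero_dvd_iff.1 this
  obtain ⟨f, hf0, hf1, S, hS, hSp, hSlt, hNS⟩ := form_alg ρ hU hU' hlt _
    (MonoidHom.normal_ker _) hN0 (fun g hg x => by
      have h1 : ρ g = 1 := MonoidHom.mem_ker.1 hg
      rw [h1]
      rfl)
  obtain ⟨h1, h2, h3⟩ := field_part hK hN ρ U' f S hS (hNle.trans hNS)
  exact ⟨f, hf0, hf1, h1, h2, S.index, h3, hSp, hSlt⟩

end Pool.Agent.W2helper24.IW
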